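import Pool.Agent.Helper35.JO.Vol

/-!
# Logarithmic coordinates and perturbations
-/

set_option autoImplicit false

namespace Pool.Agent.Helper35.JO

open MeasureTheory Module Submodule NumberField NumberField.InfinitePlace
  NumberField.mixedEmbedding NumberField.mixedEmbedding.fundamentalCone
  NumberField.Units NumberField.Units.dirichletUnitTheorem

variable {K : Type} [Field K] [NumberField K]

/-- the logarithmic coordinates -/
noncomputable def yy (x : mixedSpace K) : realSpace K :=
  (completeBasis K).equivFun (fun w ↦ mult w * Real.log (normAtPlace w x))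

theorem expMapBasis_yy {x : mixedSpace K} (hx : ∀ w, 0 < normAtPlace w x) :
    expMapBasis (yy x) = normAtAllPlaces x := by
  rw [expMapBasis_apply, yy, LinearEquiv.symm_apply_apply]
  ext w
  rw [expMap_apply, inv_mul_cancel_left₀ mult_coe_ne_zero, Real.exp_log (hx w)]

theorem mem_S_iff {x : mixedSpace K} (hx : ∀ w, 0 < normAtPlace w x) (u a b : ℝ) :
    x ∈ S K u a b ↔ yy x ∈ P K u a b := by
  rw [S, Set.mem_preimage, ← expMapBasis_yy hx, (injective_expMapBasis K).mem_set_image]

theorem pos_of_mem_S {x : mixedSpace K} {u a b : ℝ} (hx : x ∈ S K u a b) (w : InfinitePlace K) :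
    0 < normAtPlace w x := by
  obtain ⟨y, _, hy⟩ := hx
  have := expMapBasis_pos y w
  rw [hy] at this
  exact this

open scoped Classical in
theorem mem_P_iff {y : realSpace K} {u a b : ℝ} :
    y ∈ P K u a b ↔ y w₀ ≤ u ∧ ∀ w, w ≠ w₀ → a ≤ y w ∧ y w < b := by
  rw [P, Set.mem_univ_pi]
  constructor
  · intro h
    refine ⟨by simpa using h w₀, fun w hw => by simpa [hw] using h w⟩
  · rintro ⟨h1, h2⟩ w
    split_ifs with hw
    · rw [hw]; exact h1
    · exact h2 w hw

/-- the cone with bounded norm in coordinates -/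
theorem mem_S_zero_one_iff {x : mixedSpace K} (u : ℝ) :
    x ∈ S K u 0 1 ↔ x ∈ fundamentalCone K ∧
      mixedEmbedding.norm x ≤ Real.exp (finrank ℚ K * u) := by
  by_cases hx : ∀ w, 0 < normAtPlace w x
  · rw [mem_S_iff hx, mem_P_iff, fundamentalCone]
    have h1 : mixedEmbedding.norm x = Real.exp (yy x w₀) ^ finrank ℚ K := by
      rw [← norm_normAtAllPlaces, ← expMapBasis_yy hx, norm_expMapBasis]
    have h2 : logMap x = logMap (mixedSpaceOfRealSpace (expMapBasis (yy x))) := by
      rw [expMapBasis_yy hx, logMap_normAtAllPlaces]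
    rw [Set.mem_sdiff, Set.mem_preimage, h2, logMap_expMapBasis, h1]
    have h3 : ¬ x ∈ {x : mixedSpace K | mixedEmbedding.norm x = 0} := by
      rw [Set.mem_ofPred_eq, h1]
      exact pow_ne_zero _ (Real.exp_ne_zero _)
    have h4 : Real.exp (yy x w₀) ^ finrank ℚ K ≤ Real.exp (finrank ℚ K * u) ↔ yy x w₀ ≤ u := by
      rw [← Real.exp_nat_mul, Real.exp_le_exp]
      have : (0 : ℝ) < finrank ℚ K := Nat.cast_pos.mpr Module.finrank_pos
      exact mul_le_mul_iff_right₀ this
    rw [h4]
    simp only [Set.mem_Ico]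
    tauto
  · constructor
    · intro h
      exact absurd (pos_of_mem_S h) hx
    · rintro ⟨h, -⟩
      exact absurd (fundamentalCone.normAtPlace_pos_of_mem h) hx

open scoped Classical in
/-- the norm of `x` dominates the absolute values -/
theorem normAtPlace_le_norm (w : InfinitePlace K) (x : mixedSpace K) :
    normAtPlace w x ≤ ‖x‖ := by
  rw [norm_eq_sup'_normAtPlace]
  exact Finset.le_sup' (fun w => normAtPlace w x) (Finset.mem_univ w)

theorem log_close {p q R m : ℝ} (hm : 0 < m) (hmp : m ≤ p) (hpq : |q - p| ≤ R) (hR : 2 * R ≤ m) :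
    0 < q ∧ |Real.log q - Real.log p| ≤ 2 * (R / m) := by
  have hR0 : 0 ≤ R := (abs_nonneg _).trans hpq
  obtain ⟨h1, h2⟩ := abs_le.mp hpq
  have hp : 0 < p := lt_of_lt_of_le hm hmp
  have hq' : m / 2 ≤ q := by linarith
  have hq : 0 < q := by linarith
  refine ⟨hq, ?_⟩
  rw [abs_le]
  constructor
  · have : Real.log (p / q) ≤ p / q - 1 := Real.log_le_sub_one_of_pos (div_pos hp hq)
    rw [Real.log_div hp.ne' hq.ne'] at this
    have h3 : p / q - 1 ≤ 2 * (R / m) := by
      rw [div_sub_one hq.ne', div_le_iff₀ hq]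
      calc p - q ≤ R := by linarith
        _ = 2 * (R / m) * (m / 2) := by field_simp
        _ ≤ 2 * (R / m) * q := by
          apply mul_le_mul_of_nonneg_left hq'
          positivity
    linarith
  · have : Real.log (q / p) ≤ q / p - 1 := Real.log_le_sub_one_of_pos (div_pos hq hp)
    rw [Real.log_div hq.ne' hp.ne'] at this
    have h3 : q / p - 1 ≤ 2 * (R / m) := by
      rw [div_sub_one hp.ne', div_le_iff₀ hp]
      calc q - p ≤ R := by linarith
        _ = (R / m) * m := by field_simp
        _ ≤ (R / m) * p := by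
          apply mul_le_mul_of_nonneg_left hmp
          positivity
        _ ≤ 2 * (R / m) * p := by
          have : 0 ≤ R / m * p := by positivity
          linarith
    linarith

open scoped Classical in
variable (K) in
theorem perturb : ∃ C : ℝ, 0 < C ∧ ∀ (R m : ℝ) (x v : mixedSpace K), 0 < m →
    (∀ w, m ≤ normAtPlace w x) → ‖v‖ ≤ R → 2 * R ≤ m →
    (∀ w, 0 < normAtPlace w (x + v)) ∧ ∀ i, |yy (x + v) i - yy x i| ≤ C * (R / m) := by
  let e : realSpace K →L[ℝ] realSpace K := (completeBasis K).equivFunL.toContinuousLinearMap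
  refine ⟨‖e‖ * 4 + 1, by positivity, ?_⟩
  intro R m x v hm hx hv hR
  have hclose : ∀ w, |normAtPlace w (x + v) - normAtPlace w x| ≤ R := by
    intro w
    have h1 := normAtPlace_add_le w x v
    have h2 := normAtPlace_add_le w (x + v) (-v)
    rw [add_neg_cancel_right, normAtPlace_neg] at h2
    have h3 := normAtPlace_le_norm w v
    rw [abs_le]
    constructor <;> linarith
  have hR0 : 0 ≤ R := (norm_nonneg _).trans hv
  refine ⟨fun w => (log_close hm (hx w) (hclose w) hR).1, fun i => ?_⟩
  have h4 : yy (x + v) - yy x = e (fun w ↦ mult w * Real.log (normAtPlace w (x + v)) -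
      mult w * Real.log (normAtPlace w x)) := by
    have : (fun w : InfinitePlace K ↦ mult w * Real.log (normAtPlace w (x + v)) -
      mult w * Real.log (normAtPlace w x)) = (fun w ↦ mult w * Real.log (normAtPlace w (x + v))) -
      (fun w ↦ mult w * Real.log (normAtPlace w x)) := rfl
    rw [this, map_sub]
    rfl
  have h5 : |yy (x + v) i - yy x i| ≤ ‖yy (x + v) - yy x‖ := by
    have := norm_le_pi_norm (yy (x + v) - yy x) i
    rwa [Pi.sub_apply, Real.norm_eq_abs] at this
  refine h5.trans ?_
  rw [h4]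
  refine (e.le_opNorm _).trans ?_
  have h6 : ‖(fun w : InfinitePlace K ↦ mult w * Real.log (normAtPlace w (x + v)) -
      mult w * Real.log (normAtPlace w x))‖ ≤ 4 * (R / m) := by
    rw [pi_norm_le_iff_of_nonneg (by positivity)]
    intro w
    rw [← mul_sub, Real.norm_eq_abs, abs_mul]
    have h7 := (log_close hm (hx w) (hclose w) hR).2
    have h8 : |(mult w : ℝ)| ≤ 2 := by
      rw [Nat.abs_cast]
      unfold mult
      split_ifs <;> norm_num
    calc _ ≤ 2 * (2 * (R / m)) := by
          apply mul_le_mul h8 h7 (abs_nonneg _) (by norm_num)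
      _ = _ := by ring
  calc ‖e‖ * _ ≤ ‖e‖ * (4 * (R / m)) := mul_le_mul_of_nonneg_left h6 (norm_nonneg _)
    _ ≤ (‖e‖ * 4 + 1) * (R / m) := by
      have : 0 ≤ R / m := by positivity
      nlinarith [norm_nonneg e]

variable (K) in
theorem compare : ∃ c : ℝ, 0 < c ∧ ∀ (x : mixedSpace K) (u a b : ℝ), x ∈ S K u a b →
    -1 ≤ a → b ≤ 2 → ∀ w, c⁻¹ * Real.exp (yy x w₀) ≤ normAtPlace w x ∧
      normAtPlace w x ≤ c * Real.exp (yy x w₀) := by
  classical
  let e : realSpace K →L[ℝ] realSpace K := (completeBasis K).equivFunL.symm.toContinuousLinearMap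
  refine ⟨Real.exp (‖e‖ * 2), Real.exp_pos _, ?_⟩
  intro x u a b hx ha hb w
  have hpos := pos_of_mem_S hx
  have h1 := expMapBasis_yy hpos
  have h2 : normAtPlace w x = expMapBasis (yy x) w := by
    rw [h1]
  rw [mem_S_iff hpos, mem_P_iff] at hx
  rw [h2, expMapBasis_apply'', Pi.smul_apply, smul_eq_mul, expMapBasis_apply, expMap_apply]
  set z : realSpace K := fun i ↦ if i = w₀ then 0 else yy x i
  have h3 : ‖(completeBasis K).equivFun.symm z‖ ≤ ‖e‖ * 2 := by
    have h4 : (completeBasis K).equivFun.symm z = e z := rfl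
    rw [h4]
    refine (e.le_opNorm z).trans (mul_le_mul_of_nonneg_left ?_ (norm_nonneg _))
    rw [pi_norm_le_iff_of_nonneg (by norm_num)]
    intro i
    simp only [z]
    split_ifs with hi
    · simp
    · have := hx.2 i hi
      rw [Real.norm_eq_abs, abs_le]
      constructor <;> linarith [this.1, this.2]
  have h5 : |((mult w : ℝ))⁻¹ * (completeBasis K).equivFun.symm z w| ≤ ‖e‖ * 2 := by
    rw [abs_mul]
    have h6 : |((mult w : ℝ))⁻¹| ≤ 1 := by
      unfold mult
      split_ifs <;> norm_num
    have h7 : |(completeBasis K).equivFun.symm z w| ≤ ‖e‖ * 2 := by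
      refine le_trans ?_ h3
      have := norm_le_pi_norm ((completeBasis K).equivFun.symm z) w
      rwa [Real.norm_eq_abs] at this
    calc _ ≤ 1 * (‖e‖ * 2) := mul_le_mul h6 h7 (abs_nonneg _) (by norm_num)
      _ = _ := one_mul _
  obtain ⟨h8, h9⟩ := abs_le.mp h5
  constructor
  · rw [← Real.exp_neg, mul_comm]
    exact mul_le_mul_of_nonneg_left (Real.exp_le_exp.mpr h8) (Real.exp_nonneg _)
  · rw [mul_comm]
    exact mul_le_mul_of_nonneg_right (Real.exp_le_exp.mpr h9) (Real.exp_nonneg _)

end Pool.Agent.Helper35.JO
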