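import Mathlib

/-!
# Counting lattice points with a fundamental domain; volumes of the parameter sets
-/

set_option autoImplicit false

namespace Pool.Agent.Helper35.JO

open MeasureTheory Module Submodule

section Abstract

variable {E : Type*} [NormedAddCommGroup E] [NormedSpace ℝ E] [FiniteDimensional ℝ E]
  [MeasurableSpace E] [BorelSpace E] {ι : Type*} [Fintype ι] (b : Basis ι ℝ E)
  (μ : Measure E) [μ.IsAddHaarMeasure]

theorem measure_union (A : Set E) (hA : A ⊆ (span ℤ (Set.range b) : Set E)) :
    μ (⋃ a ∈ A, (fun z => a + z) '' (ZSpan.fundamentalDomain b)) =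
      ((A.encard : ENat) : ENNReal) * μ (ZSpan.fundamentalDomain b) := by
  classical
  have hc : A.Countable := by
    have : Countable (span ℤ (Set.range b)) := inferInstance
    exact (Set.countable_coe_iff.mp this).mono hA
  rw [measure_biUnion hc]
  · have : ∀ a : A, μ ((fun z => (a : E) + z) '' (ZSpan.fundamentalDomain b)) =
        μ (ZSpan.fundamentalDomain b) := by
      intro a
      rw [Set.image_add_left]
      exact measure_preimage_add _ _ _
    simp_rw [this]
    rw [ENNReal.tsum_const]
    rfl
  · intro x hx y hy hxy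
    rw [Function.onFun, Set.disjoint_left]
    rintro z ⟨u, hu, rfl⟩ ⟨v, hv, h⟩
    apply hxy
    simp only at h
    have hx' := hA hx
    have hy' := hA hy
    obtain ⟨w, -, hw⟩ := ZSpan.exist_unique_vadd_mem_fundamentalDomain b (x + u)
    have h1 := hw ⟨-x, neg_mem hx'⟩ (by
      change -x + (x + u) ∈ _
      simpa using hu)
    have h2 := hw ⟨-y, neg_mem hy'⟩ (by
      change -y + (x + u) ∈ _
      rw [← h]
      simpa using hv)
    have h3 := h1.trans h2.symm
    have h4 := congrArg Subtype.val h3
    simpa using h4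
  · intro a ha
    rw [Set.image_add_left]
    exact (ZSpan.fundamentalDomain_measurableSet b).preimage (measurable_const_add _)

theorem upper (A T : Set E) (hA : A ⊆ (span ℤ (Set.range b) : Set E))
    (h : ∀ a ∈ A, ∀ v ∈ ZSpan.fundamentalDomain b, a + v ∈ T) :
    ((A.encard : ENat) : ENNReal) * μ (ZSpan.fundamentalDomain b) ≤ μ T := by
  rw [← measure_union b μ A hA]
  apply measure_mono
  simp only [Set.iUnion_subset_iff]
  rintro a ha _ ⟨v, hv, rfl⟩
  exact h a ha v hv

theorem lower (A T : Set E) (hA : A ⊆ (span ℤ (Set.range b) : Set E))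
    (h : ∀ z ∈ T, ∀ a ∈ (span ℤ (Set.range b) : Set E), z - a ∈ ZSpan.fundamentalDomain b →
      a ∈ A) :
    μ T ≤ ((A.encard : ENat) : ENNReal) * μ (ZSpan.fundamentalDomain b) := by
  rw [← measure_union b μ A hA]
  apply measure_mono
  intro z hz
  obtain ⟨w, hw, -⟩ := ZSpan.exist_unique_vadd_mem_fundamentalDomain b z
  simp only [Set.mem_iUnion]
  have hw' : (w : E) + z ∈ ZSpan.fundamentalDomain b := hw
  refine ⟨-(w : E), ?_, (w : E) + z, hw', by simp⟩
  apply h z hz
  · exact neg_mem w.2
  · rw [sub_neg_eq_add, add_comm]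
    exact hw'

end Abstract

end Pool.Agent.Helper35.JO
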