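import Pool.Agent.Helper35.JO.Main
import Pool.Agent.Helper13.JO.Defs

/-!
# Counting ideals with a power saving
-/

set_option autoImplicit false

namespace Pool.Agent.Helper35.JO

open MeasureTheory Module Submodule NumberField NumberField.InfinitePlace
  NumberField.mixedEmbedding NumberField.mixedEmbedding.fundamentalCone
  NumberField.Units NumberField.Units.dirichletUnitTheorem Metric
open scoped nonZeroDivisors

variable (K : Type) [Field K] [NumberField K]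

/-- monotone functions: from large arguments to all arguments at least `1` -/
theorem extend_large {M : ℝ → ℝ} (hM : Monotone M) (hM0 : ∀ x, 0 ≤ M x) {ρ δ C x₀ : ℝ} (hρ : 0 ≤ ρ)
    (hδ1 : δ ≤ 1) (hC : 0 ≤ C) (hx₀ : 1 ≤ x₀)
    (h : ∀ x, x₀ ≤ x → |M x - ρ * x| ≤ C * x ^ (1 - δ)) :
    ∃ C' : ℝ, 0 ≤ C' ∧ ∀ x, 1 ≤ x → |M x - ρ * x| ≤ C' * x ^ (1 - δ) := by
  refine ⟨C + (M x₀ + ρ * x₀), by have := hM0 x₀; positivity, ?_⟩
  intro x hx
  have hp : 1 ≤ x ^ (1 - δ) := Real.one_le_rpow hx (by linarith)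
  rcases le_total x₀ x with h1 | h1
  · refine (h x h1).trans ?_
    apply mul_le_mul_of_nonneg_right _ (by linarith)
    have := hM0 x₀
    have : 0 ≤ ρ * x₀ := by positivity
    linarith [hM0 x₀]
  · have h2 := hM h1
    have h3 := hM0 x
    have h4 : ρ * x ≤ ρ * x₀ := mul_le_mul_of_nonneg_left h1 hρ
    have h5 : 0 ≤ ρ * x := by positivity
    have h6 : |M x - ρ * x| ≤ M x₀ + ρ * x₀ := by
      rw [abs_le]
      constructor <;> linarith [hM0 x₀]
    calc |M x - ρ * x| ≤ (M x₀ + ρ * x₀) * 1 := by rw [mul_one]; exact h6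
      _ ≤ (M x₀ + ρ * x₀) * x ^ (1 - δ) :=
        mul_le_mul_of_nonneg_left hp (by linarith [hM0 x₀])
      _ ≤ _ := by
        apply mul_le_mul_of_nonneg_right _ (by linarith)
        linarith

/-- number of elements of the ideal set of norm at most `x` -/
noncomputable def cnt (J : (Ideal (𝓞 K))⁰) (x : ℝ) : ℕ :=
  Nat.card {a : idealSet K J // mixedEmbedding.norm (a : mixedSpace K) ≤ x}

theorem exists_count (J : (Ideal (𝓞 K))⁰) : ∃ ρ C x₀ : ℝ, 0 < ρ ∧ 0 ≤ C ∧ 1 ≤ x₀ ∧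
    ∀ x : ℝ, x₀ ≤ x → |(cnt K J x : ℝ) - ρ * x| ≤ C * x ^ (1 - (2 * (finrank ℚ K : ℝ))⁻¹) := by
  classical
  set L : Submodule ℤ (mixedSpace K) :=
    mixedEmbedding.idealLattice K ((FractionalIdeal.mk0 K) J) with hL
  have : Module.Free ℤ L := ZLattice.module_free ℝ L
  have : Module.Finite ℤ L := ZLattice.module_finite ℝ L
  let b := (Module.Free.chooseBasis ℤ L).ofZLatticeBasis ℝ L
  have hb : span ℤ (Set.range b) = L := (Module.Free.chooseBasis ℤ L).ofZLatticeBasis_span ℝ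
  obtain ⟨ρ, C, u₀, hρ, hC, hu₀, h⟩ := count_large b
  rw [hb] at h
  have hd : (0 : ℝ) < finrank ℚ K := Nat.cast_pos.mpr Module.finrank_pos
  refine ⟨ρ, C, Real.exp (finrank ℚ K * u₀), hρ, hC, Real.one_le_exp (by positivity), ?_⟩
  intro x hx
  have hxpos : 0 < x := lt_of_lt_of_le (Real.exp_pos _) hx
  set u : ℝ := Real.log x / finrank ℚ K with hu
  have hdu : finrank ℚ K * u = Real.log x := by
    rw [hu]
    field_simp
  have hexp : Real.exp (finrank ℚ K * u) = x := by rw [hdu, Real.exp_log hxpos]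
  have huu : u₀ ≤ u := by
    rw [hu, le_div_iff₀ hd, Real.le_log_iff_exp_le hxpos, mul_comm]
    exact hx
  obtain ⟨hfin, hh⟩ := h u huu
  rw [hexp] at hh
  have hcnt : cnt K J x = (A K L u).ncard := by
    rw [cnt, ← Nat.card_coe_set_eq]
    refine Nat.card_congr ((Equiv.subtypeSubtypeEquivSubtypeInter (fun a : mixedSpace K =>
      a ∈ idealSet K J) (fun a => mixedEmbedding.norm a ≤ x)).trans (Equiv.subtypeEquivRight ?_))
    intro a
    simp only [A, Set.mem_inter_iff, mem_S_zero_one_iff, hexp, idealSet]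
    tauto
  rw [hcnt]
  convert! hh using 2
  rw [Real.rpow_sub hxpos, Real.rpow_one, div_eq_mul_inv, ← Real.rpow_neg hxpos.le,
    Real.rpow_def_of_pos hxpos]
  congr 2
  rw [← hdu]
  field_simp

/-- the number of ideals in a class -/
noncomputable def cls (C : ClassGroup (𝓞 K)) (s : ℝ) : ℕ :=
  Nat.card {I : (Ideal (𝓞 K))⁰ // Ideal.absNorm (I : Ideal (𝓞 K)) ≤ s ∧ ClassGroup.mk0 I = C}

theorem cls_eq {C : ClassGroup (𝓞 K)} {J : (Ideal (𝓞 K))⁰} (hJ : ClassGroup.mk0 J = C⁻¹) (s : ℝ) :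
    cls K C s * torsionOrder K = cnt K J (s * Ideal.absNorm (J : Ideal (𝓞 K))) := by
  have h1 : cls K C s
      = Nat.card {I : (Ideal (𝓞 K))⁰ // (J : Ideal (𝓞 K)) ∣ I ∧ IsPrincipal (I : Ideal (𝓞 K)) ∧
        Ideal.absNorm (I : Ideal (𝓞 K)) ≤ s * Ideal.absNorm (J : Ideal (𝓞 K))} := by
    rw [cls]
    simp_rw [← nonZeroDivisors_dvd_iff_dvd_coe]
    refine Nat.card_congr ?_
    refine ((Equiv.dvd J).subtypeEquiv fun I ↦ ?_).trans
      (Equiv.subtypeSubtypeEquivSubtypeInter (fun I : (Ideal (𝓞 K))⁰ ↦ J ∣ I) _)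
    rw [← ClassGroup.mk0_eq_one_iff (SetLike.coe_mem _)]
    simp_rw [Equiv.dvd_apply, Submonoid.coe_mul, ← Submonoid.mul_def, _root_.map_mul, hJ,
      inv_mul_eq_one, Nat.cast_mul, mul_comm s, eq_comm, and_comm, and_congr_left_iff]
    exact fun _ ↦
      (mul_le_mul_iff_of_pos_left (Nat.cast_pos.mpr
        (Ideal.absNorm_pos_of_nonZeroDivisors J))).symm
  rw [h1, cnt, card_isPrincipal_dvd_norm_le]

theorem exists_cls (C : ClassGroup (𝓞 K)) : ∃ ρ C' x₀ : ℝ, 0 < ρ ∧ 0 ≤ C' ∧ 1 ≤ x₀ ∧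
    ∀ x : ℝ, x₀ ≤ x → |(cls K C x : ℝ) - ρ * x| ≤ C' * x ^ (1 - (2 * (finrank ℚ K : ℝ))⁻¹) := by
  obtain ⟨J, hJ⟩ := ClassGroup.mk0_surjective C⁻¹
  obtain ⟨ρ, C', x₀, hρ, hC, hx₀, h⟩ := exists_count K J
  have hT : (0 : ℝ) < torsionOrder K := Nat.cast_pos.mpr (torsionOrder_pos K)
  set N : ℝ := (Ideal.absNorm (J : Ideal (𝓞 K)) : ℝ) with hN
  have hN1 : 1 ≤ N := by
    have : 1 ≤ Ideal.absNorm (J : Ideal (𝓞 K)) := Ideal.absNorm_pos_of_nonZeroDivisors J
    rw [hN]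
    exact_mod_cast this
  set δ : ℝ := (2 * (finrank ℚ K : ℝ))⁻¹ with hδ
  refine ⟨ρ * N / torsionOrder K, C' * N ^ (1 - δ) / torsionOrder K, x₀, by positivity,
    by positivity, hx₀, ?_⟩
  intro x hx
  have hx0 : 0 < x := by linarith
  have h1 := h (x * N) (by nlinarith)
  have h2 : (cnt K J (x * N) : ℝ) = cls K C x * torsionOrder K := by
    rw [hN, ← cls_eq K hJ x]
    push_cast
    rfl
  rw [h2, Real.mul_rpow hx0.le (by linarith)] at h1
  have e1 : (cls K C x : ℝ) - ρ * N / torsionOrder K * x =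
      (cls K C x * torsionOrder K - ρ * (x * N)) / torsionOrder K := by
    field_simp
  rw [e1, abs_div, abs_of_pos hT, div_le_iff₀ hT]
  refine h1.trans (le_of_eq ?_)
  field_simp

theorem ideal_count : Pool.Agent.Helper13.JO.IdealCountStmt := by
  intro K _ _
  classical
  have hd1 : (1 : ℝ) ≤ finrank ℚ K := by
    have : 1 ≤ finrank ℚ K := Module.finrank_pos
    exact_mod_cast this
  set δ : ℝ := (2 * (finrank ℚ K : ℝ))⁻¹ with hδ
  have hδ0 : 0 < δ := by positivity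
  have hδ1 : δ < 1 := by
    rw [hδ]
    apply inv_lt_one_of_one_lt₀
    linarith
  choose ρ C' x₀ hρ hC hx₀ h using exists_cls K
  -- the counting function
  set M : ℝ → ℝ := fun x => ∑ n ∈ Finset.Icc 1 ⌊x⌋₊, (Pool.Agent.Helper13.JO.idc K n : ℝ) with hM
  have hMmono : Monotone M := by
    intro x y hxy
    apply Finset.sum_le_sum_of_subset_of_nonneg
    · exact Finset.Icc_subset_Icc_right (Nat.floor_mono hxy)
    · intros
      positivity
  have hM0 : ∀ x, 0 ≤ M x := fun x => Finset.sum_nonneg fun _ _ => Nat.cast_nonneg _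
  have hMeq : ∀ x : ℝ, 0 ≤ x → M x = ∑ C : ClassGroup (𝓞 K), (cls K C x : ℝ) := by
    intro x hx
    have : Fintype {I : (Ideal (𝓞 K))⁰ // Ideal.absNorm (I : Ideal (𝓞 K)) ≤ x} := by
      simp_rw [← Nat.le_floor_iff hx]
      refine @Fintype.ofFinite _ (Ideal.finite_setOfPred_absNorm_le₀ ⌊x⌋₊)
    have h1 : ∑ C : ClassGroup (𝓞 K), (cls K C x : ℝ) =
        (Fintype.card {I : (Ideal (𝓞 K))⁰ // Ideal.absNorm (I : Ideal (𝓞 K)) ≤ x} : ℝ) := by
      let e := fun C : ClassGroup (𝓞 K) ↦ Equiv.subtypeSubtypeEquivSubtypeInter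
        (fun I : (Ideal (𝓞 K))⁰ ↦ (Ideal.absNorm I.1 : ℝ) ≤ x) (fun I ↦ ClassGroup.mk0 I = C)
      simp_rw [cls, ← Nat.card_congr (e _), Nat.card_eq_fintype_card, Fintype.subtype_card]
      rw [Fintype.card, Finset.card_eq_sum_card_fiberwise (f := fun I ↦ ClassGroup.mk0 I.1)
        (t := Finset.univ) (fun _ _ ↦ Finset.mem_univ _), Nat.cast_sum]
    rw [h1, hM]
    have h2 : ∀ n ∈ Finset.Icc 1 ⌊x⌋₊, (Pool.Agent.Helper13.JO.idc K n : ℝ) =
        (((Finset.univ : Finset {I : (Ideal (𝓞 K))⁰ // (Ideal.absNorm (I : Ideal (𝓞 K)) : ℝ) ≤ x}).filter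
          fun I => Ideal.absNorm (I.1 : Ideal (𝓞 K)) = n).card : ℝ) := by
      intro n hn
      rw [Finset.mem_Icc] at hn
      rw [Pool.Agent.Helper13.JO.idc, ← Fintype.card_subtype, ← Nat.card_eq_fintype_card]
      congr 1
      refine Nat.card_congr
        { toFun := fun I => ⟨⟨⟨I.1, mem_nonZeroDivisors_of_ne_zero ?_⟩, ?_⟩, ?_⟩
          invFun := fun I => ⟨I.1.1.1, I.2⟩
          left_inv := fun I => rfl
          right_inv := fun I => rfl }
      · intro h0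
        have := I.2
        rw [h0] at this
        simp at this
        omega
      · change (Ideal.absNorm I.1 : ℝ) ≤ x
        rw [I.2]
        exact (Nat.le_floor_iff hx).mp hn.2
      · exact I.2
    change ∑ n ∈ Finset.Icc 1 ⌊x⌋₊, (Pool.Agent.Helper13.JO.idc K n : ℝ) = _
    rw [Finset.sum_congr rfl h2, ← Nat.cast_sum]
    congr 1
    rw [Fintype.card]
    symm
    apply Finset.card_eq_sum_card_fiberwise
    intro I _
    rw [Finset.coe_Icc, Set.mem_Icc]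
    constructor
    · exact Ideal.absNorm_pos_of_nonZeroDivisors I.1
    · exact (Nat.le_floor_iff hx).mpr I.2
  -- large x
  set X₀ : ℝ := 1 + ∑ C, x₀ C with hX₀
  have hX₀C : ∀ C, x₀ C ≤ X₀ := by
    intro C
    have := Finset.single_le_sum (f := x₀) (fun C _ => by linarith [hx₀ C]) (Finset.mem_univ C)
    linarith
  have hlarge : ∀ x, X₀ ≤ x → |M x - (∑ C, ρ C) * x| ≤ (∑ C, C' C) * x ^ (1 - δ) := by
    intro x hx
    have hx1 : 1 ≤ x := (hx₀ 1).trans ((hX₀C 1).trans hx)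
    rw [hMeq x (by linarith), Finset.sum_mul, Finset.sum_mul, ← Finset.sum_sub_distrib]
    refine (Finset.abs_sum_le_sum_abs _ _).trans (Finset.sum_le_sum fun C _ => ?_)
    exact h C x ((hX₀C C).trans hx)
  have hX₀1 : 1 ≤ X₀ := (hx₀ 1).trans (hX₀C 1)
  have hρs : 0 < ∑ C, ρ C := Finset.sum_pos (fun C _ => hρ C) Finset.univ_nonempty
  obtain ⟨C'', hC'', hfin⟩ := extend_large hMmono hM0 hρs.le hδ1.le
    (Finset.sum_nonneg fun C _ => hC C) hX₀1 hlarge
  exact ⟨∑ C, ρ C, δ, C'', hρs, hδ0, hδ1, hC'', hfin⟩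

end Pool.Agent.Helper35.JO
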