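import Pool.Agent.Helper35.JO.Count
import Pool.Agent.Helper35.JO.Coord

/-!
# Counting lattice points in the cone with a power saving
-/

set_option autoImplicit false

namespace Pool.Agent.Helper35.JO

open MeasureTheory Module Submodule NumberField NumberField.InfinitePlace
  NumberField.mixedEmbedding NumberField.mixedEmbedding.fundamentalCone
  NumberField.Units NumberField.Units.dirichletUnitTheorem Metric

section Analysis

theorem exp_le_aux {x : ℝ} (h0 : 0 ≤ x) (h1 : x ≤ 1 / 2) : Real.exp x ≤ 1 + 2 * x := by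
  have h2 : Real.exp x ≤ 1 / (1 - x) := by
    have h3 : 1 - x ≤ Real.exp (-x) := by
      have := Real.add_one_le_exp (-x)
      linarith
    rw [le_div_iff₀ (by linarith)]
    calc Real.exp x * (1 - x) ≤ Real.exp x * Real.exp (-x) :=
          mul_le_mul_of_nonneg_left h3 (Real.exp_nonneg _)
      _ = 1 := by rw [← Real.exp_add, add_neg_cancel, Real.exp_zero]
  refine h2.trans ?_
  rw [div_le_iff₀ (by linarith)]
  nlinarith

theorem up_aux {d r : ℕ} {ε : ℝ} (h0 : 0 ≤ ε) (h1 : (d + 2 * r) * ε ≤ 1 / 2) :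
    Real.exp (d * ε) * (1 + 2 * ε) ^ r ≤ 1 + 2 * ((d + 2 * r) * ε) := by
  have h2 : (1 + 2 * ε) ^ r ≤ Real.exp (r * (2 * ε)) := by
    rw [Real.exp_nat_mul]
    apply pow_le_pow_left₀ (by linarith)
    have := Real.add_one_le_exp (2 * ε)
    linarith
  calc Real.exp (d * ε) * (1 + 2 * ε) ^ r ≤ Real.exp (d * ε) * Real.exp (r * (2 * ε)) :=
        mul_le_mul_of_nonneg_left h2 (Real.exp_nonneg _)
    _ = Real.exp ((d + 2 * r) * ε) := by
        rw [← Real.exp_add]
        congr 1
        ring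
    _ ≤ _ := exp_le_aux (by positivity) h1

theorem low_aux {d r : ℕ} {ε : ℝ} (h0 : 0 ≤ ε) (h1 : (d + 2 * r) * ε ≤ 1 / 2) (h2 : ε ≤ 1 / 2) :
    1 - (d + 2 * r) * ε ≤ Real.exp (-(d * ε)) * (1 - 2 * ε) ^ r := by
  have h3 : 1 - r * (2 * ε) ≤ (1 - 2 * ε) ^ r := by
    have := one_add_mul_le_pow (a := -(2 * ε)) (by linarith) r
    have h4 : 1 + -(2 * ε) = 1 - 2 * ε := by ring
    rw [h4] at this
    linarith
  have h5 : 1 - d * ε ≤ Real.exp (-(d * ε)) := by
    have := Real.add_one_le_exp (-(d * ε))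
    linarith
  have h6 : 0 ≤ (d : ℝ) * ε := by positivity
  have h7 : 0 ≤ (r : ℝ) * (2 * ε) := by positivity
  have h8 : (d : ℝ) * ε + r * (2 * ε) ≤ 1 / 2 := by linarith
  calc 1 - (d + 2 * r) * ε ≤ (1 - d * ε) * (1 - r * (2 * ε)) := by nlinarith
    _ ≤ Real.exp (-(d * ε)) * (1 - 2 * ε) ^ r := by
      apply mul_le_mul h5 h3 (by linarith) (Real.exp_nonneg _)

end Analysis

variable (K : Type) [Field K] [NumberField K] {ι : Type} [Fintype ι]

/-- lattice points in the cone -/
noncomputable def A (L : Submodule ℤ (mixedSpace K)) (u : ℝ) : Set (mixedSpace K) :=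
  (L : Set (mixedSpace K)) ∩ S K u 0 1

variable {K}

theorem A_mono (L : Submodule ℤ (mixedSpace K)) {u v : ℝ} (h : u ≤ v) : A K L u ⊆ A K L v := by
  classical
  rintro x ⟨hx, hx'⟩
  refine ⟨hx, ?_⟩
  have hpos := pos_of_mem_S hx'
  rw [mem_S_iff hpos, mem_P_iff] at hx' ⊢
  exact ⟨hx'.1.trans h, hx'.2⟩

open scoped Classical in
theorem count_large (b : Basis ι ℝ (mixedSpace K)) :
    ∃ ρ C u₀ : ℝ, 0 < ρ ∧ 0 ≤ C ∧ 0 ≤ u₀ ∧ ∀ u : ℝ, u₀ ≤ u →
      (A K (span ℤ (Set.range b)) u).Finite ∧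
      |((A K (span ℤ (Set.range b)) u).ncard : ℝ) - ρ * Real.exp (finrank ℚ K * u)| ≤
        C * (Real.exp (finrank ℚ K * u) * Real.exp (-(u / 2))) := by
  obtain ⟨R₀, hR₀⟩ := (ZSpan.fundamentalDomain_isBounded b).exists_norm_le
  set R : ℝ := max R₀ 1 with hRdef
  have hR1 : 1 ≤ R := le_max_right _ _
  have hRF : ∀ v ∈ ZSpan.fundamentalDomain b, ‖v‖ ≤ R := fun v hv => (hR₀ v hv).trans (le_max_left _ _)
  obtain ⟨C₁, hC₁, hpert⟩ := perturb K
  obtain ⟨c, hc, hcomp⟩ := compare K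
  set d := finrank ℚ K with hd
  set r := rk K with hr
  have hd1 : (1 : ℝ) ≤ d := by
    have : 1 ≤ d := Module.finrank_pos
    exact_mod_cast this
  set μ : Measure (mixedSpace K) := volume with hμ
  set F := ZSpan.fundamentalDomain b with hF
  have hF0 : μ F ≠ 0 := ZSpan.measure_fundamentalDomain_ne_zero b
  have hFt : μ F ≠ ⊤ := (ZSpan.fundamentalDomain_isBounded b).measure_lt_top.ne
  set V : ℝ := (μ F).toReal with hV
  have hVpos : 0 < V := ENNReal.toReal_pos hF0 hFt
  set v : ℝ := (vc K).toReal with hv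
  have hvpos : 0 < v := ENNReal.toReal_pos (vc_ne_zero K) (vc_ne_top K)
  set β : ℝ := (μ (ball 0 1)).toReal with hβ
  have hβt : μ (ball 0 1) ≠ ⊤ := measure_ball_lt_top.ne
  have hball : ∀ s : ℝ, 0 < s → μ (closedBall 0 s) = ENNReal.ofReal (s ^ d * β) := by
    intro s hs
    rw [Measure.addHaar_closedBall μ 0 hs.le, mixedEmbedding.finrank,
      ENNReal.ofReal_mul (by positivity), ENNReal.ofReal_toReal hβt]
  set E₀ : ℝ := C₁ * R * c with hE₀
  have hE₀pos : 0 < E₀ := by positivity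
  set q : ℝ := (d : ℝ) + 2 * r with hq
  have hq1 : 1 ≤ q := by
    have : (0 : ℝ) ≤ r := Nat.cast_nonneg _
    linarith
  -- the threshold
  set Λ : ℝ := max (2 * R * c) (2 * q * E₀) with hΛ
  have hΛpos : 0 < Λ := lt_of_lt_of_le (by positivity) (le_max_left _ _)
  set u₀ : ℝ := max 0 (2 * Real.log Λ) with hu₀
  refine ⟨v / V, (2 * v * q * E₀ + β * (c + c⁻¹) ^ d) / V, u₀, by positivity, by positivity,
    le_max_left _ _, ?_⟩
  intro u hu
  have hu0 : 0 ≤ u := (le_max_left _ _).trans hu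
  have hexp : Λ ≤ Real.exp (u / 2) := by
    rw [← Real.log_le_iff_le_exp hΛpos]
    have := (le_max_right 0 (2 * Real.log Λ)).trans hu
    linarith
  set e : ℝ := Real.exp (u / 2) with he
  have hepos : 0 < e := Real.exp_pos _
  have hcond1 : 2 * R ≤ c⁻¹ * e := by
    rw [inv_mul_eq_div, le_div_iff₀ hc]
    exact (le_max_left _ _).trans hexp
  set ε : ℝ := C₁ * (R / (c⁻¹ * e)) with hε
  have hεE : ε = E₀ * e⁻¹ := by
    rw [hε, hE₀]
    field_simp
  have hε0 : 0 < ε := by positivity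
  have hcond2 : q * ε ≤ 1 / 2 := by
    rw [hεE]
    have h1 : 2 * q * E₀ ≤ e := (le_max_right _ _).trans hexp
    rw [← mul_assoc, ← div_eq_mul_inv, div_le_iff₀ hepos]
    linarith
  have hcond3 : ε ≤ 1 / 2 := by
    calc ε = 1 * ε := (one_mul _).symm
      _ ≤ q * ε := mul_le_mul_of_nonneg_right hq1 hε0.le
      _ ≤ _ := hcond2
  set L : Submodule ℤ (mixedSpace K) := span ℤ (Set.range b) with hL
  set AA : Set (mixedSpace K) := A K L u with hAA
  have hAL : AA ⊆ (L : Set (mixedSpace K)) := Set.inter_subset_left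
  set s₁ : ℝ := c * e + R with hs₁
  have hs₁pos : 0 < s₁ := by positivity
  -- upper bound
  have hup : ((AA.encard : ENat) : ENNReal) * μ F ≤
      μ (S K (u + ε) (-ε) (1 + ε) ∪ closedBall 0 s₁) := by
    refine upper b μ AA _ hAL ?_
    intro a ha w hw
    have haS : a ∈ S K u 0 1 := ha.2
    have hapos := pos_of_mem_S haS
    by_cases hcase : u / 2 < yy a w₀
    · left
      have hlow : ∀ w, c⁻¹ * e ≤ normAtPlace w a := by
        intro w
        refine le_trans ?_ (hcomp a u 0 1 haS (by norm_num) (by norm_num) w).1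
        exact mul_le_mul_of_nonneg_left (Real.exp_le_exp.mpr hcase.le) (by positivity)
      obtain ⟨h1, h2⟩ := hpert R (c⁻¹ * e) a w (by positivity) hlow (hRF w hw) hcond1
      rw [mem_S_iff h1, mem_P_iff]
      rw [mem_S_iff hapos, mem_P_iff] at haS
      constructor
      · have := (abs_le.mp (h2 w₀)).2
        linarith [haS.1]
      · intro i hi
        have h3 := abs_le.mp (h2 i)
        have h4 := haS.2 i hi
        constructor <;> linarith [h3.1, h3.2, h4.1, h4.2]
    · right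
      rw [mem_closedBall_zero_iff]
      refine (norm_add_le _ _).trans (add_le_add ?_ (hRF w hw))
      rw [norm_eq_sup'_normAtPlace]
      refine Finset.sup'_le _ _ fun w _ => ?_
      refine (hcomp a u 0 1 haS (by norm_num) (by norm_num) w).2.trans ?_
      exact mul_le_mul_of_nonneg_left (Real.exp_le_exp.mpr (not_lt.mp hcase)) hc.le
  have hlo : μ (S K (u - ε) ε (1 - ε) \ closedBall 0 (c * e)) ≤
      ((AA.encard : ENat) : ENNReal) * μ F := by
    refine lower b μ AA _ hAL ?_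
    intro z hz a ha hza
    have hzS := hz.1
    have hzpos := pos_of_mem_S hzS
    have hz2 : c * e < ‖z‖ := by
      have := hz.2
      rw [mem_closedBall_zero_iff, not_le] at this
      exact this
    have hyz : u / 2 < yy z w₀ := by
      rw [norm_eq_sup'_normAtPlace, Finset.lt_sup'_iff] at hz2
      obtain ⟨w, -, hw⟩ := hz2
      have h1 := (hcomp z _ _ _ hzS (by linarith) (by linarith) w).2
      have h2 : c * e < c * Real.exp (yy z w₀) := lt_of_lt_of_le hw h1
      have h3 : e < Real.exp (yy z w₀) := lt_of_mul_lt_mul_left h2 hc.le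
      exact Real.exp_lt_exp.mp h3
    have hlow : ∀ w, c⁻¹ * e ≤ normAtPlace w z := by
      intro w
      refine le_trans ?_ (hcomp z _ _ _ hzS (by linarith) (by linarith) w).1
      exact mul_le_mul_of_nonneg_left (Real.exp_le_exp.mpr hyz.le) (by positivity)
    have hnorm : ‖a - z‖ ≤ R := by
      rw [norm_sub_rev]
      exact hRF _ hza
    obtain ⟨h1, h2⟩ := hpert R (c⁻¹ * e) z (a - z) (by positivity) hlow hnorm hcond1
    rw [add_sub_cancel] at h1 h2
    refine ⟨ha, ?_⟩
    rw [mem_S_iff h1, mem_P_iff]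
    rw [mem_S_iff hzpos, mem_P_iff] at hzS
    constructor
    · have := (abs_le.mp (h2 w₀)).2
      linarith [hzS.1]
    · intro i hi
      have h3 := abs_le.mp (h2 i)
      have h4 := hzS.2 i hi
      constructor <;> linarith [h3.1, h3.2, h4.1, h4.2]
  -- finiteness
  have hS1 := volume_S K (u + ε) (-ε) (1 + ε) (by linarith)
  have hS2 := volume_S K (u - ε) ε (1 - ε) (by linarith)
  rw [← hd, ← hr] at hS1 hS2
  have hup' : ((AA.encard : ENat) : ENNReal) * μ F ≤
      vc K * ENNReal.ofReal (Real.exp (d * (u + ε)) * ((1 + ε) - (-ε)) ^ r) +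
        ENNReal.ofReal (s₁ ^ d * β) := by
    refine hup.trans ((measure_union_le _ _).trans ?_)
    rw [hball s₁ hs₁pos]
    exact add_le_add hS1.le le_rfl
  have hlo' : vc K * ENNReal.ofReal (Real.exp (d * (u - ε)) * ((1 - ε) - ε) ^ r) ≤
      ((AA.encard : ENat) : ENNReal) * μ F + ENNReal.ofReal ((c * e) ^ d * β) := by
    rw [← hS2, ← hball (c * e) (by positivity)]
    refine le_trans ?_ (add_le_add hlo le_rfl)
    refine le_trans (measure_mono ?_) (measure_union_le _ _)
    intro z hz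
    by_cases h : z ∈ closedBall (0 : mixedSpace K) (c * e)
    · exact Or.inr h
    · exact Or.inl ⟨hz, h⟩
  have htop : vc K * ENNReal.ofReal (Real.exp (d * (u + ε)) * ((1 + ε) - (-ε)) ^ r) +
        ENNReal.ofReal (s₁ ^ d * β) ≠ ⊤ :=
    ENNReal.add_ne_top.mpr ⟨ENNReal.mul_ne_top (vc_ne_top K) ENNReal.ofReal_ne_top,
      ENNReal.ofReal_ne_top⟩
  have hfin : AA.Finite := by
    by_contra hinf
    have h1 : AA.encard = ⊤ := Set.encard_eq_top_iff.mpr hinf
    rw [h1] at hup'
    have h2 : ((⊤ : ENat) : ENNReal) * μ F = ⊤ := by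
      rw [ENat.toENNReal_top, ENNReal.top_mul hF0]
    rw [h2] at hup'
    exact htop (top_le_iff.mp hup')
  refine ⟨hfin, ?_⟩
  have hcard : ((AA.encard : ENat) : ENNReal) = ((AA.ncard : ℕ) : ENNReal) := by
    rw [← hfin.cast_ncard_eq]
    simp
  rw [hcard] at hup' hlo'
  set n : ℝ := (AA.ncard : ℝ) with hn
  have hβ0 : 0 ≤ β := ENNReal.toReal_nonneg
  have hup2 : n * V ≤ v * (Real.exp (d * (u + ε)) * (1 + 2 * ε) ^ r) + s₁ ^ d * β := by
    have := ENNReal.toReal_mono htop hup'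
    rw [ENNReal.toReal_mul, ENNReal.toReal_add (ENNReal.mul_ne_top (vc_ne_top K)
      ENNReal.ofReal_ne_top) ENNReal.ofReal_ne_top, ENNReal.toReal_mul,
      ENNReal.toReal_ofReal, ENNReal.toReal_ofReal, ENNReal.toReal_natCast] at this
    · have e1 : (1 + ε) - (-ε) = 1 + 2 * ε := by ring
      rw [e1] at this
      exact this
    · positivity
    · have : 0 ≤ (1 + ε) - (-ε) := by linarith
      positivity
  have hlo2 : v * (Real.exp (d * (u - ε)) * (1 - 2 * ε) ^ r) ≤ n * V + (c * e) ^ d * β := by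
    have := ENNReal.toReal_mono (ENNReal.add_ne_top.mpr ⟨ENNReal.mul_ne_top
      (ENNReal.natCast_ne_top _) hFt, ENNReal.ofReal_ne_top⟩) hlo'
    rw [ENNReal.toReal_mul, ENNReal.toReal_add (ENNReal.mul_ne_top (ENNReal.natCast_ne_top _)
      hFt) ENNReal.ofReal_ne_top, ENNReal.toReal_mul,
      ENNReal.toReal_ofReal, ENNReal.toReal_ofReal, ENNReal.toReal_natCast] at this
    · have e1 : (1 - ε) - ε = 1 - 2 * ε := by ring
      rw [e1] at this
      exact this
    · positivity
    · have : 0 ≤ (1 - ε) - ε := by linarith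
      positivity
  -- estimates
  set X : ℝ := Real.exp (d * u) with hX
  have hXpos : 0 < X := Real.exp_pos _
  have hed : e ^ d = Real.exp (d * u) * Real.exp (-(d * (u / 2))) := by
    rw [he, ← Real.exp_nat_mul, ← Real.exp_add]
    congr 1
    ring
  have hed2 : e ^ d ≤ X * Real.exp (-(u / 2)) := by
    rw [hed]
    apply mul_le_mul_of_nonneg_left _ hXpos.le
    apply Real.exp_le_exp.mpr
    nlinarith
  have hinv : e⁻¹ = Real.exp (-(u / 2)) := by rw [he, ← Real.exp_neg]
  set δ : ℝ := Real.exp (-(u / 2)) with hδ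
  have hδpos : 0 < δ := Real.exp_pos _
  have h1 : Real.exp (d * (u + ε)) * (1 + 2 * ε) ^ r ≤ X * (1 + 2 * (q * ε)) := by
    have e1 : Real.exp (d * (u + ε)) = X * Real.exp (d * ε) := by
      rw [hX, ← Real.exp_add]
      congr 1
      ring
    rw [e1, mul_assoc]
    exact mul_le_mul_of_nonneg_left (up_aux hε0.le hcond2) hXpos.le
  have h2 : X * (1 - q * ε) ≤ Real.exp (d * (u - ε)) * (1 - 2 * ε) ^ r := by
    have e1 : Real.exp (d * (u - ε)) = X * Real.exp (-(d * ε)) := by
      rw [hX, ← Real.exp_add]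
      congr 1
      ring
    rw [e1, mul_assoc]
    exact mul_le_mul_of_nonneg_left (low_aux hε0.le hcond2 hcond3) hXpos.le
  have h3 : s₁ ^ d ≤ (c + c⁻¹) ^ d * (X * δ) := by
    have h4 : s₁ ≤ (c + c⁻¹) * e := by
      rw [hs₁, add_mul]
      linarith
    calc s₁ ^ d ≤ ((c + c⁻¹) * e) ^ d := pow_le_pow_left₀ hs₁pos.le h4 d
      _ = (c + c⁻¹) ^ d * e ^ d := mul_pow _ _ _
      _ ≤ _ := mul_le_mul_of_nonneg_left hed2 (by positivity)
  have h5 : (c * e) ^ d ≤ (c + c⁻¹) ^ d * (X * δ) := by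
    refine le_trans (pow_le_pow_left₀ (by positivity) ?_ d) h3
    rw [hs₁]
    linarith
  have hεδ : ε = E₀ * δ := by rw [hεE, hinv]
  have key1 : n * V ≤ v * X + (2 * v * q * E₀ + β * (c + c⁻¹) ^ d) * (X * δ) := by
    calc n * V ≤ v * (Real.exp (d * (u + ε)) * (1 + 2 * ε) ^ r) + s₁ ^ d * β := hup2
      _ ≤ v * (X * (1 + 2 * (q * ε))) + (c + c⁻¹) ^ d * (X * δ) * β := by
        apply add_le_add
        · exact mul_le_mul_of_nonneg_left h1 hvpos.le
        · exact mul_le_mul_of_nonneg_right h3 hβ0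
      _ = _ := by rw [hεδ]; ring
  have key2 : v * X - (2 * v * q * E₀ + β * (c + c⁻¹) ^ d) * (X * δ) ≤ n * V := by
    have h6 : v * (X * (1 - q * ε)) ≤ n * V + (c + c⁻¹) ^ d * (X * δ) * β := by
      calc v * (X * (1 - q * ε)) ≤ v * (Real.exp (d * (u - ε)) * (1 - 2 * ε) ^ r) :=
            mul_le_mul_of_nonneg_left h2 hvpos.le
        _ ≤ n * V + (c * e) ^ d * β := hlo2
        _ ≤ _ := by
          have := mul_le_mul_of_nonneg_right h5 hβ0
          linarith
    have h7 : v * (X * (1 - q * ε)) = v * X - v * q * E₀ * (X * δ) := by rw [hεδ]; ring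
    rw [h7] at h6
    have h8 : 0 ≤ v * q * E₀ * (X * δ) := by positivity
    linarith
  have hfinal : |n - v / V * X| ≤ (2 * v * q * E₀ + β * (c + c⁻¹) ^ d) / V * (X * δ) := by
    have e1 : n - v / V * X = (n * V - v * X) / V := by field_simp
    have e2 : (2 * v * q * E₀ + β * (c + c⁻¹) ^ d) / V * (X * δ) =
      (2 * v * q * E₀ + β * (c + c⁻¹) ^ d) * (X * δ) / V := by ring
    rw [e1, e2, abs_div, abs_of_pos hVpos]
    apply div_le_div_of_nonneg_right _ hVpos.le
    rw [abs_le]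
    constructor <;> linarith
  exact hfinal

end Pool.Agent.Helper35.JO
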