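import Mathlib

/-!
# Volumes of the parameter sets
-/

set_option autoImplicit false

namespace Pool.Agent.Helper35.JO

open MeasureTheory Module Submodule NumberField NumberField.InfinitePlace
  NumberField.mixedEmbedding NumberField.mixedEmbedding.fundamentalCone
  NumberField.Units NumberField.Units.dirichletUnitTheorem ENNReal

variable (K : Type) [Field K] [NumberField K]

open scoped Classical in
/-- the parameter set -/
noncomputable def P (u a b : ℝ) : Set (realSpace K) :=
  Set.univ.pi fun w ↦ if w = w₀ then Set.Iic u else Set.Ico a b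

theorem measurableSet_P (u a b : ℝ) : MeasurableSet (P K u a b) := by
  refine MeasurableSet.univ_pi fun _ ↦ ?_
  split_ifs
  · exact measurableSet_Iic
  · exact measurableSet_Ico

/-- number of places minus one -/
noncomputable def rk : ℕ := by
  classical
  exact (Finset.univ.erase (w₀ : InfinitePlace K)).card

theorem setLIntegral_P (u a b : ℝ) (hab : a ≤ b) {n : ℕ} (hn : 0 < n) :
    ∫⁻ (x : realSpace K) in P K u a b, .ofReal (Real.exp (x w₀ * n)) =
      ENNReal.ofReal (Real.exp (n * u) * (b - a) ^ rk K) * (n : ℝ≥0∞)⁻¹ := by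
  classical
  have hn : 0 < (n : ℝ) := Nat.cast_pos.mpr hn
  rw [volume_pi, P, Measure.restrict_pi_pi, lintegral_eq_lmarginal_univ 0,
    lmarginal_erase' _ (by fun_prop) (Finset.mem_univ w₀), if_pos rfl]
  simp_rw [Function.update_self, lmarginal, lintegral_const, Measure.pi_univ, if_neg
    (Finset.ne_of_mem_erase (Subtype.prop _)), Measure.restrict_apply_univ, Real.volume_Ico,
    Finset.prod_const, mul_comm _ (n : ℝ)]
  rw [← ofReal_integral_eq_lintegral_ofReal (integrableOn_exp_mul_Iic hn _), integral_exp_mul_Iic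
    hn]
  · rw [ofReal_div_of_pos hn, ofReal_natCast, ENNReal.div_eq_inv_mul]
    rw [ENNReal.ofReal_mul (Real.exp_nonneg _), ENNReal.ofReal_pow (by linarith)]
    rw [mul_comm (n : ℝ≥0∞)⁻¹, mul_assoc, mul_assoc, mul_comm (n : ℝ≥0∞)⁻¹]
    congr 3
    rw [rk]
    simp
  · filter_upwards with _ using Real.exp_nonneg _

/-- the set with the given parameter range -/
noncomputable def S (u a b : ℝ) : Set (mixedSpace K) :=
  normAtAllPlaces ⁻¹' (expMapBasis '' P K u a b)

/-- the constant of the volume -/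
noncomputable def vc : ℝ≥0∞ :=
  2 ^ nrRealPlaces K * NNReal.pi ^ nrComplexPlaces K * .ofReal (regulator K)

open scoped Classical in
theorem volume_S (u a b : ℝ) (hab : a ≤ b) :
    volume (S K u a b) = vc K * ENNReal.ofReal (Real.exp (finrank ℚ K * u) * (b - a) ^ rk K) := by
  have hmeas : MeasurableSet (S K u a b) := by
    unfold S
    refine MeasurableSet.preimage ?_ (continuous_normAtAllPlaces K).measurable
    refine MeasurableSet.image_of_continuousOn_injOn ?_ (continuous_expMapBasis K).continuousOn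
      (injective_expMapBasis K).injOn
    exact measurableSet_P K u a b
  unfold S at hmeas ⊢
  rw [volume_eq_two_pow_mul_two_pi_pow_mul_integral Set.preimage_image_preimage
    hmeas,
    normAtAllPlaces_image_preimage_expMapBasis,
    setLIntegral_expMapBasis_image (measurableSet_P K u a b) (by fun_prop)]
  simp_rw [ENNReal.inv_mul_cancel_right
    (Finset.prod_ne_zero_iff.mpr fun _ _ ↦ ofReal_ne_zero_iff.mpr (expMapBasis_pos _ _))
    (prod_ne_top fun _ _ ↦ ofReal_ne_top)]
  rw [setLIntegral_P K u a b hab Module.finrank_pos, vc]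
  set t : ℝ≥0∞ := ENNReal.ofReal (Real.exp (finrank ℚ K * u) * (b - a) ^ rk K)
  rw [ofReal_mul zero_le_two, mul_pow,
    ofReal_ofNat]
  have e1 : (2 : ℝ≥0∞)⁻¹ ^ nrComplexPlaces K * 2 ^ nrComplexPlaces K = 1 := by
    rw [← mul_pow, ENNReal.inv_mul_cancel two_ne_zero ENNReal.ofNat_ne_top, one_pow]
  have e2 : ((finrank ℚ K : ℕ) : ℝ≥0∞) * ((finrank ℚ K : ℕ) : ℝ≥0∞)⁻¹ = 1 :=
    ENNReal.mul_inv_cancel (Nat.cast_ne_zero.mpr Module.finrank_pos.ne') (natCast_ne_top _)
  rw [coe_nnreal_eq, NNReal.coe_real_pi]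
  calc _ = 2 ^ nrRealPlaces K * ENNReal.ofReal Real.pi ^ nrComplexPlaces K *
        ENNReal.ofReal (regulator K) * t *
        ((2 : ℝ≥0∞)⁻¹ ^ nrComplexPlaces K * 2 ^ nrComplexPlaces K) *
        (((finrank ℚ K : ℕ) : ℝ≥0∞) * ((finrank ℚ K : ℕ) : ℝ≥0∞)⁻¹) := by ring
    _ = _ := by rw [e1, e2, mul_one, mul_one]

theorem vc_ne_zero : vc K ≠ 0 := by
  unfold vc
  refine mul_ne_zero (mul_ne_zero (pow_ne_zero _ two_ne_zero) (pow_ne_zero _ ?_)) ?_
  · simp [NNReal.pi_ne_zero]
  · rw [Ne, ENNReal.ofReal_eq_zero, not_le]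
    exact regulator_pos K

theorem vc_ne_top : vc K ≠ ⊤ := by
  unfold vc
  refine ENNReal.mul_ne_top (ENNReal.mul_ne_top (ENNReal.pow_ne_top ENNReal.ofNat_ne_top)
    (ENNReal.pow_ne_top ENNReal.coe_ne_top)) ENNReal.ofReal_ne_top

end Pool.Agent.Helper35.JO
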